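import Mathlib
import Pool.Agent.H643R2.EX.Alph

/-!
# Generalized star height, with stars on codes of finite deciphering delay

In the expressions considered here complement, union, intersection and concatenation are
unrestricted, and the star is only applied to subexpressions whose language is a set of nonempty
words with finite deciphering delay in both directions.  Every regular language has such an
expression, and over every finite alphabet with at least two letters the star heights with respect
to such expressions take all values: for every `h` there is a regular language for which the least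
height is exactly `h`.

`GRE`, `GRE.lang`, `GRE.height` are the generalized regular expressions, their languages and their
heights (`Pool/Agent/H643R2/SH/Defs.lean`).
-/

set_option autoImplicit false

namespace Pool.Agent.Results.MP_7ed153_lc.FiniteDelayStars

open Pool.Agent.H643R2.SH

variable {A : Type}

/-- `K` consists of nonempty words and has finite deciphering delay from left to right and from
right to left: for some `d`, if `x y u = x' z` with `x, x' ∈ K`, `y ∈ K ^ d`, `z ∈ K*` and an
arbitrary word `u`, then `x = x'`; and the same for the reversed words. -/
def TwoSidedDelay (K : Language A) : Prop :=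
  [] ∉ K ∧
  (∃ d : ℕ, ∀ x ∈ K, ∀ x' ∈ K, ∀ y ∈ K ^ d, ∀ z ∈ KStar.kstar K, ∀ u : List A,
    x ++ y ++ u = x' ++ z → x = x') ∧
  (∃ d : ℕ, ∀ x ∈ K, ∀ x' ∈ K, ∀ y ∈ K ^ d, ∀ z ∈ KStar.kstar K, ∀ u : List A,
    u ++ y ++ x = z ++ x' → x = x')

/-- In the expression the star is only applied to subexpressions that denote sets of nonempty words
with finite deciphering delay in both directions. -/
def DelayStars : GRE A → Prop
  | .zero => True
  | .one => True
  | .char _ => True
  | .union E F => DelayStars E ∧ DelayStars F
  | .inter E F => DelayStars E ∧ DelayStars F
  | .cat E F => DelayStars E ∧ DelayStars F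
  | .compl E => DelayStars E
  | .star E => DelayStars E ∧ TwoSidedDelay E.lang

theorem delayStars_iff (E : GRE A) : DelayStars E ↔ Pool.Agent.H643R2.EX.DStars E := by
  induction E with
  | zero => exact Iff.rfl
  | one => exact Iff.rfl
  | char a => exact Iff.rfl
  | union E F h1 h2 => exact and_congr h1 h2
  | inter E F h1 h2 => exact and_congr h1 h2
  | cat E F h1 h2 => exact and_congr h1 h2
  | compl E h1 => exact h1
  | star E h1 => exact and_congr h1 Iff.rfl

/-- Let `A` be a finite alphabet with at least two letters.  Every regular language over `A` is
denoted by a generalized regular expression with stars only on sets of nonempty words with finite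
deciphering delay in both directions, and for every `h` there is a regular language `L` over `A`
such that the least height of such an expression for `L` is exactly `h`. -/
theorem result (A : Type) [Finite A] [Nontrivial A] :
    (∀ L : Language A, L.IsRegular → ∃ E : GRE A, DelayStars E ∧ E.lang = L) ∧
    ∀ h : ℕ, ∃ L : Language A, L.IsRegular ∧
      (∃ E : GRE A, DelayStars E ∧ E.height = h ∧ E.lang = L) ∧
      ∀ E : GRE A, DelayStars E → E.lang = L → h ≤ E.height := by
  constructor
  · intro L hL
    obtain ⟨E, h1, h2⟩ := Pool.Agent.H643R2.EX.exists_expr L hL
    exact ⟨E, (delayStars_iff E).2 h1, h2⟩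
  · intro h
    obtain ⟨a, b, hab⟩ := exists_pair_ne A
    have hi : Function.Injective (![a, b] : Fin 2 → A) := by
      intro i j hij
      fin_cases i <;> fin_cases j <;> simp_all
    obtain ⟨L, h1, ⟨E, h2, h3, h4⟩, h5⟩ := Pool.Agent.H643R2.EX.exactA hi h
    exact ⟨L, h1, ⟨E, (delayStars_iff E).2 h2, h3, h4⟩,
      fun F hF hFL => h5 F ((delayStars_iff F).1 hF) hFL⟩

end Pool.Agent.Results.MP_7ed153_lc.FiniteDelayStars
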