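import Mathlib
import Pool.Agent.TH733.GSH.Met2

/-!
# Generalized star height of group languages: metabelian groups of class four on top

`HS n X` says that the language `X` has generalized star height at most `n`
(`Pool/Agent/H936R2/SH/Basic.lean`).
-/

set_option autoImplicit false

namespace Pool.Agent.Results.MP_7ed153_lc.GroupsMetabelianFour

open Pool.Agent.H936R2.SH

/-- Let `G` be a finite group with a normal subgroup `D` of derived length at most `j` such that
`G ⧸ D` is metabelian and nilpotent of class at most four.  Every language over a finite alphabet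
which is recognised by `G` has generalized star height at most `j + 1`. -/
theorem result {α : Type} [Finite α] (j : ℕ) (G : Type) [Group G] [Finite G] (D : Subgroup G)
    [D.Normal] (hD : derivedSeries D j = ⊥) (h2 : derivedSeries (G ⧸ D) 2 = ⊥)
    (h4 : (⊤ : Subgroup (G ⧸ D)).lowerCentralSeries 4 = ⊥) (f : α → G) (S : Set G) :
    HS (j + 1) {w : List α | (w.map f).prod ∈ S} := by
  refine Pool.Agent.TH733.GSH.solv4 j G D hD ?_ ?_ f S
  · have h := map_derivedSeries_eq (QuotientGroup.mk'_surjective D) 2
    rw [h2, Subgroup.map_eq_bot_iff, QuotientGroup.ker_mk'] at h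
    exact h
  · have h5 := Subgroup.map_lowerCentralSeries (S := (⊤ : Subgroup G)) (QuotientGroup.mk' D) 4
    have h6 : (⊤ : Subgroup G).map (QuotientGroup.mk' D) = ⊤ :=
      Subgroup.map_top_of_surjective _ (QuotientGroup.mk'_surjective D)
    rw [h6, h4, Subgroup.map_eq_bot_iff, QuotientGroup.ker_mk'] at h5
    exact h5

end Pool.Agent.Results.MP_7ed153_lc.GroupsMetabelianFour
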