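import Mathlib
import Pool.Agent.H668R2.SR.Prim
import Pool.Agent.H668R2.SR.Sys
import Pool.Agent.H668R2.SR.Pow
import Pool.Agent.H668R2.SR.Main
import Pool.Agent.H668R2.SR.Norm
import Pool.Agent.H668R2.SR.Block
import Pool.Agent.H668R2.SR.Sound
import Pool.Agent.H668R2.SR.Compl
import Pool.Agent.H668R2.SR.Coord
import Pool.Agent.H668R2.SR.Tab

/-!
# Regular languages on words with long periodic runs have generalized star height one

`HS n X` says that the language `X` has generalized star height at most `n`
(`Pool/Agent/H936R2/SH/Basic.lean`); `W D P N` is the set of the words that are products of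
words of length at most `D` and of powers `u ^ n` with `1 ≤ |u| ≤ P` and `n ≥ N`, in alternation
(`Pool/Agent/H668R2/SR/Defs.lean`).
-/

set_option autoImplicit false

namespace Pool.Agent.Results.MP_7ed153_lc.LongPeriodicRuns

open Pool.Agent.H936R2.SH Pool.Agent.H668R2.SR

/-- Let `L` be a regular language over a finite alphabet (the language of the finite automaton
`step`, `s`, `F`) and let `D` and `P` be numbers.  For all large `N` the set of the words of `L`
that are products of gaps of length at most `D` and powers `u ^ n`, `1 ≤ |u| ≤ P`, `n ≥ N`, has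
generalized star height at most one. -/
theorem result (α σ : Type) [Finite α] [Finite σ] (step : σ → α → σ) (s : σ) (F : Set σ)
    (D P : ℕ) : ∃ N₀ : ℕ, ∀ N, N₀ ≤ N → HS 1 {v : List α | v.foldl step s ∈ F ∧ W D P N v} :=
  pFinal (pSys (pCoord pTab)) pPow (pMain pSound pCompl) pNorm pBlock α σ step s F D P

end Pool.Agent.Results.MP_7ed153_lc.LongPeriodicRuns
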